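import Mathlib
import Pool.Agent.H362R2.CM.Main
import Pool.Agent.TH779.Ord.Eng

/-! Coloured Maynard-Tao theorem, sharp constant: the functional `N - lam N (N - 1)`, summed over `T` classes,
exceeds every number below `T / (16 lam)`. The numerical choice of `Pool.Agent.TH779.Ord.Eng` (helper779) is
sharpened; the rest is as there. -/

set_option autoImplicit false

namespace Pool.Agent.P8H6.Blk

open Finset Filter Topology
open Pool.Agent.H362R2.CM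
open Pool.Agent.H410R2 hiding GP GP_prof GP_cut_some GP_cut_none GP_lip gg_pos gg_le_one gg_anti ee_bound ee_nonneg gg_lip LB_gg LB_ee Sums exists_sums yx wx wxi Br sum_GP_none sum_GP_some sum_GP_some_ee sum_GP_some_one sum_GPr_none sum_GPr_some S1_final QI_final S2_final w_abs_le wmax gg ee I1 I2 IE
open Pool.Agent.H361R2.GM
open Pool.Agent.TH779.Ord (fn fn_le class_sum)

/-- the strict inequality at `ε = 0` -/
theorem base_blk (T : ℕ) (lam θ : ℝ) (hT1 : 1 ≤ T) (hlam : 0 < lam)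
    (hθ : θ < T / (16 * lam)) :
    ∃ (K : ℕ) (Q : SPar) (ρ : ℝ), 2 ≤ K ∧ 0 < ρ ∧
    ρ ≤ 1 / 16 ∧ 0 < Q.I1 ∧ 0 < Q.I2 ∧ 0 < Br Q (T * K) 0 ∧
    (θ * (1 + 0) + 0) * Ac Q (T * K) 0 <
      T * (K * (ρ * βc Q (T * K) 0) - lam * ((K : ℝ) ^ 2 * γc Q (T * K) ρ 0)) := by
  have hT : (1 : ℝ) ≤ T := by exact_mod_cast hT1
  -- the gap
  obtain ⟨g, hg0, hg1, hgθ⟩ : ∃ g : ℝ, 0 < g ∧ g ≤ 1 ∧ θ ≤ T / (8 * lam) * (1 / 2 - g) := by
    set g0 : ℝ := 1 / 2 - 8 * lam * θ / T with hg0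
    have h1 : 0 < g0 := by
      rw [hg0, sub_pos, div_lt_iff₀ (by linarith)]
      rw [lt_div_iff₀ (by positivity)] at hθ
      linarith
    refine ⟨min g0 1, lt_min h1 one_pos, min_le_right _ _, ?_⟩
    have h2 : θ = T / (8 * lam) * (1 / 2 - g0) := by
      rw [hg0]; field_simp; ring
    calc θ = T / (8 * lam) * (1 / 2 - g0) := h2
      _ ≤ T / (8 * lam) * (1 / 2 - min g0 1) := by
          apply mul_le_mul_of_nonneg_left _ (by positivity)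
          have := min_le_left g0 1
          linarith
  obtain ⟨s0, hs0⟩ : ∃ s0 : ℝ, s0 = Real.log (4 / g) + 3 := ⟨_, rfl⟩
  obtain ⟨s, hs⟩ : ∃ s : ℝ, s = max s0 1 := ⟨_, rfl⟩
  have hs1 : 1 ≤ s := by rw [hs]; exact le_max_right _ _
  have hss : Real.log (4 / g) + 3 ≤ s := by rw [hs, hs0]; exact le_max_left _ _
  obtain ⟨B, hB⟩ : ∃ B : ℝ, B = 2 * s + 4 + 8 / (lam * g) := ⟨_, rfl⟩
  have hB0 : 2 * s + 4 ≤ B := by rw [hB]; have : 0 ≤ 8 / (lam * g) := by positivity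
                                 linarith
  have hBg : 8 / (lam * g) ≤ B := by rw [hB]; linarith
  set A : ℝ := B * T with hA
  have hBA : B ≤ A := by rw [hA]; nlinarith
  have hAs : 2 * s + 4 ≤ A := by linarith
  have hA4 : 4 ≤ A := by linarith
  obtain ⟨K', hK'⟩ := exists_nat_ge (100 * s ^ 2 * Real.exp A)
  set K : ℕ := K' + 2 with hK
  have hKR : 100 * s ^ 2 * Real.exp A ≤ (K : ℝ) := by
    rw [hK]; push_cast; linarith
  have hK2 : 2 ≤ K := by omega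
  have hK2R : (2 : ℝ) ≤ K := by exact_mod_cast hK2
  have hkK : (K : ℝ) ≤ ((T * K : ℕ) : ℝ) := by
    push_cast
    nlinarith
  obtain ⟨Q, hQG, hQc, hQl⟩ := exists_parS A s hA4 hs1 (T * K) (hKR.trans hkK)
  obtain ⟨hI1, hI2, hI2le, hBl, hBu⟩ := Br_zero_bounds A s hs1 hAs (T * K) (hKR.trans hkK) Q hQG hQc hQl
  set k : ℕ := T * K with hk
  have hkcast : (k : ℝ) = T * K := by rw [hk]; push_cast; ring
  have hk2 : 2 ≤ k := by
    rw [hk]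
    calc 2 ≤ K := hK2
      _ ≤ T * K := Nat.le_mul_of_pos_left K hT1
  have hK0 : (0 : ℝ) < K := by linarith
  have hk0 : (0 : ℝ) < k := by rw [hkcast]; positivity
  have hB00 : 0 < B := by linarith
  have hI1pos : 0 < Q.I1 := by rw [hI1]; positivity
  set v : ℝ := K * Q.I1 ^ 2 / Q.I2 with hv
  have hv1 : B ≤ v := by
    rw [hv, le_div_iff₀ hI2, hI1]
    calc B * Q.I2 ≤ B * (1 / (A * k)) := by gcongr
      _ = 1 / (T * k) := by rw [hA]; field_simp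
      _ = K * (1 / (k : ℝ)) ^ 2 := by rw [hkcast]; field_simp
  have hv0 : 0 < v := by linarith
  set ρ : ℝ := 1 / (8 * lam * v) with hρ
  have hρ0 : 0 < ρ := by rw [hρ]; positivity
  have hρ1 : ρ ≤ g / 64 := by
    rw [hρ, div_le_iff₀ (by positivity)]
    have h1 : 8 / (lam * g) ≤ v := hBg.trans hv1
    rw [div_le_iff₀ (by positivity)] at h1
    nlinarith
  have hρ2 : ρ ≤ 1 / 64 := by linarith
  have hρv : ρ * v = 1 / (8 * lam) := by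
    rw [hρ]; field_simp
  set η : ℝ := Real.exp (-s + 2) with hη
  have hη1 : η ≤ g / 4 := by
    have h1 : Real.exp (-s + 2) ≤ Real.exp (- Real.log (4 / g)) := by
      apply Real.exp_le_exp.2
      linarith
    rw [Real.exp_neg, Real.exp_log (by positivity)] at h1
    rw [hη]
    calc Real.exp (-s + 2) ≤ (4 / g)⁻¹ := h1
      _ = g / 4 := by rw [inv_div]
  set P : ℝ := (1 / 3) * Q.I2 ^ (k - 2) with hP
  have hP0 : 0 < P := by positivity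
  have hpow1 : (1 / 3) * Q.I2 ^ (k - 1) = P * Q.I2 := by
    have : k - 1 = (k - 2) + 1 := by omega
    rw [this, pow_succ, hP]; ring
  have hpow2 : (1 / 3) * Q.I2 ^ k = P * Q.I2 ^ 2 := by
    have : k = (k - 2) + 2 := by omega
    rw [hP, mul_assoc, ← pow_add, ← this]
  set b : ℝ := Br Q k 0 / (P * Q.I2) with hb
  have hPI : 0 < P * Q.I2 := by positivity
  have hBb : Br Q k 0 = b * (P * Q.I2) := by
    rw [hb]; field_simp
  rw [hpow1] at hBl hBu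
  have hb1 : 1 - g / 4 ≤ b := by
    have : 1 - η ≤ b := by
      rw [hb, le_div_iff₀ hPI]; exact hBl
    linarith
  have hb0 : 0 < b := by linarith
  have hBpos : 0 < Br Q k 0 := by rw [hBb]; positivity
  refine ⟨K, Q, ρ, hK2, hρ0, by linarith, hI1pos, hI2, hBpos, ?_⟩
  have hAc : Ac Q k 0 = P * Q.I2 ^ 2 := by
    unfold Ac
    rw [← hpow2]; simp
  have hβ : βc Q k 0 = Q.I1 ^ 2 * (b * (P * Q.I2)) := by
    unfold βc
    rw [hBb]; simp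
  have hγ : γc Q k ρ 0 = ρ ^ 2 / (1 / 4 - 2 * ρ) * (Q.I1 ^ 4 * P) := by
    unfold γc
    rw [hP]; simp
  rw [hAc, hβ, hγ]
  have hq0 : 0 < 1 / 4 - 2 * ρ := by linarith
  have e1 : K * (ρ * (Q.I1 ^ 2 * (b * (P * Q.I2)))) = P * Q.I2 ^ 2 * (ρ * v * b) := by
    rw [hv]; field_simp
  have e2 : (K : ℝ) ^ 2 * (ρ ^ 2 / (1 / 4 - 2 * ρ) * (Q.I1 ^ 4 * P)) =
      P * Q.I2 ^ 2 * ((ρ * v) ^ 2 / (1 / 4 - 2 * ρ)) := by
    rw [hv]; field_simp
  rw [e1, e2, hρv]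
  have hPI2 : 0 < P * Q.I2 ^ 2 := by positivity
  have e3 : (T : ℝ) * (P * Q.I2 ^ 2 * (1 / (8 * lam) * b) -
      lam * (P * Q.I2 ^ 2 * ((1 / (8 * lam)) ^ 2 / (1 / 4 - 2 * ρ)))) =
      (T * (1 / (8 * lam) * b - lam * ((1 / (8 * lam)) ^ 2 / (1 / 4 - 2 * ρ)))) *
        (P * Q.I2 ^ 2) := by ring
  rw [e3]
  apply mul_lt_mul_of_pos_right _ hPI2
  have h5 : (1 / (8 * lam)) ^ 2 / (1 / 4 - 2 * ρ) ≤ (1 / (8 * lam)) ^ 2 * (4 + 64 * ρ) := by
    rw [div_le_iff₀ hq0]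
    have h6 : 1 ≤ (4 + 64 * ρ) * (1 / 4 - 2 * ρ) := by nlinarith
    have h7 : 0 ≤ (1 / (8 * lam)) ^ 2 := sq_nonneg _
    calc (1 / (8 * lam)) ^ 2 = (1 / (8 * lam)) ^ 2 * 1 := (mul_one _).symm
      _ ≤ (1 / (8 * lam)) ^ 2 * ((4 + 64 * ρ) * (1 / 4 - 2 * ρ)) := mul_le_mul_of_nonneg_left h6 h7
      _ = _ := by ring
  have h8 : lam * ((1 / (8 * lam)) ^ 2 / (1 / 4 - 2 * ρ)) ≤ 1 / (8 * lam) * (1 / 2 + 8 * ρ) := by
    calc lam * ((1 / (8 * lam)) ^ 2 / (1 / 4 - 2 * ρ)) ≤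
        lam * ((1 / (8 * lam)) ^ 2 * (4 + 64 * ρ)) := by gcongr
      _ = 1 / (8 * lam) * (1 / 2 + 8 * ρ) := by field_simp; ring
  have h9 : 1 / (8 * lam) * (1 - g / 4) ≤ 1 / (8 * lam) * b := by gcongr
  have h10 : θ * (1 + 0) + 0 = θ := by ring
  rw [h10]
  refine lt_of_le_of_lt hgθ ?_
  have h11 : (T : ℝ) / (8 * lam) * (1 / 2 - g) = T * (1 / (8 * lam) * (1 / 2 - g)) := by
    field_simp
  rw [h11]
  apply mul_lt_mul_of_pos_left _ (by linarith)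
  have h12 : 1 / (8 * lam) * (1 / 2 - g) < 1 / (8 * lam) * (1 - g / 4) - 1 / (8 * lam) * (1 / 2 + 8 * ρ) := by
    rw [← mul_sub]
    apply mul_lt_mul_of_pos_left _ (by positivity)
    linarith
  linarith

theorem num_blk (T : ℕ) (lam θ : ℝ) (hT1 : 1 ≤ T) (hlam : 0 < lam)
    (hθ : θ < T / (16 * lam)) :
    ∃ (K : ℕ) (Q : SPar) (ρ ε : ℝ), 2 ≤ K ∧ 0 < ρ ∧
    ρ ≤ 1 / 16 ∧ 0 < ε ∧ ε < 1 / 3 ∧ ε < Q.I1 ∧ ε < Q.I2 ∧ 0 < Br Q (T * K) ε ∧
    (θ * (1 + ε) + ε) * Ac Q (T * K) ε <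
      T * (K * (ρ * βc Q (T * K) ε) - lam * ((K : ℝ) ^ 2 * γc Q (T * K) ρ ε)) := by
  obtain ⟨K, Q, ρ, hK, hρ, hρ1, hI1, hI2, hB, hb⟩ := base_blk T lam θ hT1 hlam hθ
  have hcB : Continuous fun ε : ℝ => Br Q (T * K) ε := by
    unfold Br
    fun_prop
  have hcβ : Continuous fun ε : ℝ => βc Q (T * K) ε := by
    unfold βc
    fun_prop
  have hcA : Continuous fun ε : ℝ => Ac Q (T * K) ε := by
    unfold Ac
    fun_prop
  have hcγ : ContinuousAt (fun ε : ℝ => γc Q (T * K) ρ ε) 0 := by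
    unfold γc
    have h1 : ContinuousAt (fun ε : ℝ => (1 + ε) ^ 8 / (1 - ε) ^ 4) 0 := by
      apply ContinuousAt.div (by fun_prop) (by fun_prop)
      norm_num
    have h2 : ContinuousAt (fun ε : ℝ =>
        (Q.I1 + ε) ^ 4 * ((1 / 3 + ε) * (Q.I2 + ε) ^ (T * K - 2))) 0 := by fun_prop
    exact (continuousAt_const.mul h1).mul h2
  have hc1 : ContinuousAt (fun ε : ℝ => (θ * (1 + ε) + ε) * Ac Q (T * K) ε) 0 :=
    ContinuousAt.mul (by fun_prop) hcA.continuousAt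
  have hc2 : ContinuousAt (fun ε : ℝ => (T : ℝ) * (K * (ρ * βc Q (T * K) ε) -
      lam * ((K : ℝ) ^ 2 * γc Q (T * K) ρ ε))) 0 :=
    continuousAt_const.mul
      ((continuousAt_const.mul (continuousAt_const.mul hcβ.continuousAt)).sub
        (continuousAt_const.mul (continuousAt_const.mul hcγ)))
  have hev : ∀ᶠ ε : ℝ in 𝓝 0, (θ * (1 + ε) + ε) * Ac Q (T * K) ε <
      (T : ℝ) * (K * (ρ * βc Q (T * K) ε) - lam * ((K : ℝ) ^ 2 * γc Q (T * K) ρ ε)) :=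
    hc1.tendsto.eventually_lt hc2.tendsto hb
  have hev1 : ∀ᶠ ε : ℝ in 𝓝 0, ε < 1 / 3 := gt_mem_nhds (by norm_num)
  have hev2 : ∀ᶠ ε : ℝ in 𝓝 0, ε < Q.I1 := gt_mem_nhds hI1
  have hev3 : ∀ᶠ ε : ℝ in 𝓝 0, ε < Q.I2 := gt_mem_nhds hI2
  have hev4 : ∀ᶠ ε : ℝ in 𝓝 0, 0 < Br Q (T * K) ε := by
    have := hcB.tendsto (0 : ℝ)
    exact this.eventually (lt_mem_nhds hB)
  have hall := ((hev.and (hev1.and (hev2.and (hev3.and hev4)))).filter_mono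
    (nhdsWithin_le_nhds (s := Set.Ioi (0 : ℝ)))).and (self_mem_nhdsWithin (s := Set.Ioi (0 : ℝ)))
  obtain ⟨ε, ⟨h1, h2, h3, h4, h5⟩, h6⟩ := hall.exists
  exact ⟨K, Q, ρ, ε, hK, hρ, hρ1, h6, h2, h3, h4, h5, h1⟩

end Pool.Agent.P8H6.Blk
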