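import Mathlib
import Pool.Agent.P8H6.Blk.Exact
import Pool.Agent.W978.HRC.Win

/-! The block theorem: `k + 1` consecutive primes from different classes, among `8 k ^ 2 + 1` classes. -/

set_option autoImplicit false

namespace Pool.Agent.P8H6.Blk

open Finset
open Pool.Agent.TH779.Ord (fn)

/-- from the functional to the condition of the window lemma -/
theorem pairs_of {T K k : ℕ} (J : Finset ℕ) (hJ : ∀ x ∈ J, x < T * K) (h : ℕ → ℕ)
    (hinj : Set.InjOn h (J : Set ℕ)) (f : ℕ → ℕ) (hf : ∀ x ∈ J, f (h x) = x / K)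
    (hfn : (k : ℝ) < ∑ g ∈ range T, fn ((k : ℝ) / 2) (J.filter (fun x => x / K = g)).card) :
    k + k * (((J.image h) ×ˢ (J.image h)).filter (fun x => x.1 < x.2 ∧ f x.1 = f x.2)).card <
      (J.image h).card := by
  classical
  have hmaps : ∀ x ∈ J, x / K ∈ range T := by
    intro x hx
    have h1 := hJ x hx
    have hK : 0 < K := by
      rcases Nat.eq_zero_or_pos K with h2 | h2
      · rw [h2, mul_zero] at h1; omega
      · exact h2
    rw [mem_range]
    exact (Nat.div_lt_iff_lt_mul hK).2 h1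
  have hcard : J.card = ∑ g ∈ range T, (J.filter (fun x => x / K = g)).card :=
    card_eq_sum_card_fiberwise (fun x hx => by exact hmaps x hx)
  have hcardP : (J.image h).card = J.card := card_image_of_injOn hinj
  -- ordered pairs
  set A : Finset (ℕ × ℕ) := (J ×ˢ J).filter (fun x => h x.1 < h x.2 ∧ x.1 / K = x.2 / K) with hA
  set Q : Finset (ℕ × ℕ) := (J ×ˢ J).filter (fun x => x.1 ≠ x.2 ∧ x.1 / K = x.2 / K) with hQ
  have hPA : (((J.image h) ×ˢ (J.image h)).filter (fun x => x.1 < x.2 ∧ f x.1 = f x.2)).card ≤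
      A.card := by
    have h1 : ((J.image h) ×ˢ (J.image h)).filter (fun x => x.1 < x.2 ∧ f x.1 = f x.2) ⊆
        A.image (fun x => (h x.1, h x.2)) := by
      rintro ⟨y, y'⟩ hy
      rw [mem_filter, mem_product] at hy
      obtain ⟨⟨hy1, hy2⟩, hlt, hff⟩ := hy
      obtain ⟨x, hx, rfl⟩ := mem_image.1 hy1
      obtain ⟨x', hx', rfl⟩ := mem_image.1 hy2
      simp only at hlt hff
      rw [hf x hx, hf x' hx'] at hff
      exact mem_image.2 ⟨(x, x'), by
        rw [hA, mem_filter, mem_product]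
        exact ⟨⟨hx, hx'⟩, hlt, hff⟩, rfl⟩
    exact (card_le_card h1).trans card_image_le
  have h2A : 2 * A.card ≤ Q.card := by
    set A' : Finset (ℕ × ℕ) := A.image Prod.swap with hA'
    have h1 : A'.card = A.card := card_image_of_injective _ Prod.swap_injective
    have h2 : Disjoint A A' := by
      rw [disjoint_left]
      rintro ⟨x, y⟩ hx hx'
      rw [hA', mem_image] at hx'
      obtain ⟨⟨u, v⟩, hu, he⟩ := hx'
      simp only [Prod.swap_prod_mk, Prod.mk.injEq] at he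
      obtain ⟨rfl, rfl⟩ := he
      rw [hA, mem_filter] at hx hu
      have h3 := hx.2.1
      have h4 := hu.2.1
      simp only at h3 h4
      omega
    have h3 : A ∪ A' ⊆ Q := by
      intro x hx
      rw [mem_union] at hx
      rw [hQ, mem_filter, mem_product]
      rcases hx with hx | hx
      · rw [hA, mem_filter, mem_product] at hx
        refine ⟨hx.1, fun he => ?_, hx.2.2⟩
        rw [he] at hx
        exact lt_irrefl _ hx.2.1
      · rw [hA', mem_image] at hx
        obtain ⟨⟨u, v⟩, hu, rfl⟩ := hx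
        rw [hA, mem_filter, mem_product] at hu
        simp only [Prod.fst_swap, Prod.snd_swap]
        refine ⟨⟨hu.1.2, hu.1.1⟩, fun he => ?_, hu.2.2.symm⟩
        simp only at hu
        rw [he] at hu
        exact lt_irrefl _ hu.2.1
    calc 2 * A.card = A.card + A'.card := by rw [h1]; ring
      _ = (A ∪ A').card := (card_union_of_disjoint h2).symm
      _ ≤ Q.card := card_le_card h3
  have hQcard : (Q.card : ℝ) = ∑ g ∈ range T, ((J.filter (fun x => x / K = g)).card : ℝ) *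
      ((J.filter (fun x => x / K = g)).card - 1) := by
    have h1 : Q.card = ∑ g ∈ range T, (Q.filter (fun x => x.1 / K = g)).card := by
      apply card_eq_sum_card_fiberwise
      intro x hx
      have hx' : x ∈ Q := hx
      rw [hQ, mem_filter, mem_product] at hx'
      exact hmaps x.1 hx'.1.1
    rw [h1]
    push_cast
    apply sum_congr rfl
    intro g _
    have h2 : Q.filter (fun x => x.1 / K = g) = (J.filter (fun x => x / K = g)).offDiag := by
      ext ⟨x, y⟩
      rw [mem_filter, hQ, mem_filter, mem_product, mem_offDiag, mem_filter, mem_filter]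
      simp only
      constructor
      · rintro ⟨⟨⟨h3, h4⟩, h5, h6⟩, h7⟩
        exact ⟨⟨h3, h7⟩, ⟨h4, h6 ▸ h7⟩, h5⟩
      · rintro ⟨⟨h3, h4⟩, ⟨h5, h6⟩, h7⟩
        exact ⟨⟨⟨h3, h5⟩, h7, by rw [h4, h6]⟩, h4⟩
    rw [h2, offDiag_card, Nat.cast_sub (Nat.le_mul_self _)]
    push_cast
    ring
  have hfinal : (k : ℝ) + k * ((((J.image h) ×ˢ (J.image h)).filter
      (fun x => x.1 < x.2 ∧ f x.1 = f x.2)).card : ℝ) < ((J.image h).card : ℝ) := by
    rw [hcardP, hcard]
    push_cast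
    have h1 : ∑ g ∈ range T, fn ((k : ℝ) / 2) (J.filter (fun x => x / K = g)).card =
        ∑ g ∈ range T, ((J.filter (fun x => x / K = g)).card : ℝ) - (k : ℝ) / 2 * Q.card := by
      rw [hQcard, mul_sum, ← sum_sub_distrib]
      rfl
    rw [h1] at hfn
    have h2 : (((((J.image h) ×ˢ (J.image h)).filter
      (fun x => x.1 < x.2 ∧ f x.1 = f x.2)).card : ℕ) : ℝ) ≤ (A.card : ℝ) := by exact_mod_cast hPA
    have h3 : 2 * (A.card : ℝ) ≤ (Q.card : ℝ) := by exact_mod_cast h2A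
    have hk0 : (0 : ℝ) ≤ k := Nat.cast_nonneg k
    nlinarith
  exact_mod_cast hfinal

/-- the block theorem, natural shifts -/
theorem block_nat (k T : ℕ) (hk : 1 ≤ k) (hT : 8 * k ^ 2 < T) :
    ∃ K : ℕ, 2 ≤ K ∧ ∀ (q a : ℕ), 1 ≤ q → ∀ H : Fin T → Fin K → ℕ,
      Function.Injective (fun x : Fin T × Fin K => H x.1 x.2) →
      (∀ g i, Nat.Coprime (a + H g i) q) →
      (∀ p : ℕ, p.Prime → ∃ r : ℕ, ∀ g i, ¬ p ∣ r + H g i) →
      ∃ (I : Finset (Fin T)) (c : Fin T → Fin K), I.card = k + 1 ∧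
        {n : ℕ | n ≡ a [MOD q] ∧ (∀ g ∈ I, (n + H g (c g)).Prime) ∧
          ∀ y : ℕ, (∃ g ∈ I, H g (c g) ≤ y) → (∃ g ∈ I, y ≤ H g (c g)) → (n + y).Prime →
            ∃ g ∈ I, y = H g (c g)}.Infinite := by
  classical
  have hkR : (1 : ℝ) ≤ k := by exact_mod_cast hk
  have hTR : 8 * (k : ℝ) ^ 2 < T := by exact_mod_cast hT
  obtain ⟨K, hK, hmain⟩ := exact_blk T ((k : ℝ) / 2) k (by omega) (by positivity) (by positivity)
    (by
      rw [lt_div_iff₀ (by positivity)]
      nlinarith)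
  refine ⟨K, hK, ?_⟩
  intro q a hq H hH hco hadm
  have hK0 : 0 < K := by omega
  have hT0 : 0 < T := by omega
  have hdiv : ∀ x, x < T * K → x / K < T := fun x hx => (Nat.div_lt_iff_lt_mul hK0).2 hx
  set h : ℕ → ℕ := fun x => if hx : x < T * K then H ⟨x / K, hdiv x hx⟩ ⟨x % K, Nat.mod_lt _ hK0⟩
    else 0 with hh
  have hhx : ∀ x (hx : x < T * K), h x = H ⟨x / K, hdiv x hx⟩ ⟨x % K, Nat.mod_lt _ hK0⟩ := by
    intro x hx
    rw [hh]
    simp only [hx, dif_pos]
  have hinj : ∀ x < T * K, ∀ y < T * K, h x = h y → x = y := by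
    intro x hx y hy he
    rw [hhx x hx, hhx y hy] at he
    have h1 := @hH (⟨x / K, hdiv x hx⟩, ⟨x % K, Nat.mod_lt _ hK0⟩)
      (⟨y / K, hdiv y hy⟩, ⟨y % K, Nat.mod_lt _ hK0⟩) he
    simp only [Prod.mk.injEq, Fin.mk.injEq] at h1
    rw [← Nat.div_add_mod x K, ← Nat.div_add_mod y K, h1.1, h1.2]
  obtain ⟨J, hJ, hfn, hinf⟩ := hmain q a hq h hinj
    (fun x hx => by rw [hhx x hx]; exact hco _ _)
    (fun p hp => by
      obtain ⟨r, hr⟩ := hadm p hp
      exact ⟨r, fun x hx => by rw [hhx x hx]; exact hr _ _⟩)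
  have hinjJ : Set.InjOn h (J : Set ℕ) := fun x hx y hy he => hinj x (hJ x hx) y (hJ y hy) he
  set f : ℕ → ℕ := fun y => Function.invFunOn h (J : Set ℕ) y / K with hf
  have hfx : ∀ x ∈ J, f (h x) = x / K := by
    intro x hx
    rw [hf]
    simp only
    rw [hinjJ.leftInvOn_invFunOn hx]
  have hpairs := pairs_of J hJ h hinjJ f hfx hfn
  obtain ⟨F, hFP, hFc, hFinj, hFcons⟩ := Pool.Agent.W978.HRC.win k (J.image h) f hk (by
    convert hpairs)
  -- the classes of the elements of `F`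
  set cls : ℕ → Fin T := fun y => if hy : f y < T then ⟨f y, hy⟩ else ⟨0, hT0⟩ with hcls
  have hcx : ∀ x (hx : x ∈ J), cls (h x) = ⟨x / K, hdiv x (hJ x hx)⟩ := by
    intro x hx
    have h1 : f (h x) < T := by rw [hfx x hx]; exact hdiv x (hJ x hx)
    rw [hcls]
    simp only [h1, dif_pos]
    apply Fin.ext
    simp only
    exact hfx x hx
  have hclsinj : Set.InjOn cls (F : Set ℕ) := by
    intro y hy y' hy' he
    apply hFinj hy hy'
    obtain ⟨x, hx, rfl⟩ := mem_image.1 (hFP hy)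
    obtain ⟨x', hx', rfl⟩ := mem_image.1 (hFP hy')
    rw [hcx x hx, hcx x' hx', Fin.mk.injEq] at he
    rw [hfx x hx, hfx x' hx', he]
  -- the choice of the elements
  have : Nonempty (Fin K) := ⟨⟨0, hK0⟩⟩
  have hsel : ∀ y ∈ F, ∃ i : Fin K, H (cls y) i = y := by
    intro y hy
    obtain ⟨x, hx, rfl⟩ := mem_image.1 (hFP hy)
    refine ⟨⟨x % K, Nat.mod_lt _ hK0⟩, ?_⟩
    rw [hcx x hx]
    exact (hhx x (hJ x hx)).symm
  choose! s hs using hsel
  set inv : Fin T → ℕ := fun g => Function.invFunOn cls (F : Set ℕ) g with hinv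
  have hinvx : ∀ y ∈ F, inv (cls y) = y := fun y hy => hclsinj.leftInvOn_invFunOn hy
  refine ⟨F.image cls, fun g => s (inv g), ?_, ?_⟩
  · rw [card_image_of_injOn hclsinj, hFc]
  have hval : ∀ y ∈ F, H (cls y) (s (inv (cls y))) = y := by
    intro y hy
    rw [hinvx y hy]
    exact hs y hy
  apply hinf.mono
  rintro n ⟨h1, h2, h3⟩
  refine ⟨h1, ?_, ?_⟩
  · intro g hg
    obtain ⟨y, hy, rfl⟩ := mem_image.1 hg
    rw [hval y hy]
    obtain ⟨x, hx, rfl⟩ := mem_image.1 (hFP hy)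
    exact h2 x hx
  · rintro y ⟨g, hg, hgy⟩ ⟨g', hg', hgy'⟩ hp
    obtain ⟨z, hz, rfl⟩ := mem_image.1 hg
    obtain ⟨z', hz', rfl⟩ := mem_image.1 hg'
    rw [hval z hz] at hgy
    rw [hval z' hz'] at hgy'
    obtain ⟨x', hx', hxz'⟩ := mem_image.1 (hFP hz')
    obtain ⟨x, hx, rfl⟩ := h3 y ⟨x', hJ x' hx', by rw [hxz']; exact hgy'⟩ hp
    have h4 := hFcons (h x) (mem_image_of_mem h hx) ⟨z, hz, hgy⟩ ⟨z', hz', hgy'⟩
    exact ⟨cls (h x), mem_image_of_mem cls h4, (hval _ h4).symm⟩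

end Pool.Agent.P8H6.Blk
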