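import Mathlib
import Pool.Agent.P8H6.Blk.Block

/-! The block theorem for integer shifts. -/

set_option autoImplicit false

namespace Pool.Agent.P8H6.Blk

open Finset

/-- for infinitely many `n ≡ r (mod q)` the numbers `n + f`, `f ∈ F`, are primes and no other prime lies between
the smallest and the largest of them -/
def Cons (q : ℕ) (r : ℤ) (F : Finset ℤ) : Prop :=
  {n : ℕ | (n : ℤ) ≡ r [ZMOD q] ∧ (∀ f ∈ F, ∃ p : ℕ, p.Prime ∧ (p : ℤ) = n + f) ∧
    ∀ p : ℕ, p.Prime → (∃ f ∈ F, (n : ℤ) + f ≤ p) → (∃ f ∈ F, (p : ℤ) ≤ n + f) →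
      (p : ℤ) - n ∈ F}.Infinite

/-- the block theorem, integer shifts -/
theorem block_int (k T : ℕ) (hk : 1 ≤ k) (hT : 8 * k ^ 2 < T) :
    ∃ K : ℕ, 2 ≤ K ∧ ∀ (q : ℕ) (r : ℤ), 1 ≤ q → ∀ H : Fin T → Fin K → ℤ,
      Function.Injective (fun x : Fin T × Fin K => H x.1 x.2) →
      (∀ g i, IsCoprime (r + H g i) (q : ℤ)) →
      (∀ p : ℕ, p.Prime → ∃ n : ℤ, ∀ g i, ¬ (p : ℤ) ∣ n + H g i) →
      ∃ (I : Finset (Fin T)) (c : Fin T → Fin K), I.card = k + 1 ∧
        Cons q r (I.image (fun g => H g (c g))) := by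
  classical
  obtain ⟨K, hK, hmain⟩ := block_nat k T hk hT
  refine ⟨K, hK, ?_⟩
  intro q r hq H hH hco hadm
  -- the translation
  set N : ℕ := ∑ g, ∑ i, (H g i).natAbs with hN
  have hNle : ∀ g i, -(N : ℤ) ≤ H g i := by
    intro g i
    have h1 : (H g i).natAbs ≤ N := by
      rw [hN]
      exact (single_le_sum (f := fun i => (H g i).natAbs) (fun _ _ => Nat.zero_le _)
        (mem_univ i)).trans (single_le_sum (f := fun g => ∑ i, (H g i).natAbs)
          (fun _ _ => Nat.zero_le _) (mem_univ g))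
    omega
  set H' : Fin T → Fin K → ℕ := fun g i => (H g i + N).toNat with hH'
  have hH'z : ∀ g i, ((H' g i : ℕ) : ℤ) = H g i + N := by
    intro g i
    rw [hH']
    simp only
    rw [Int.toNat_of_nonneg]
    have := hNle g i
    omega
  have hq0 : (0 : ℤ) < q := by exact_mod_cast hq
  set a : ℕ := ((r - N) % (q : ℤ)).toNat with ha
  have haz : (a : ℤ) = (r - N) % (q : ℤ) := by
    rw [ha, Int.toNat_of_nonneg (Int.emod_nonneg _ hq0.ne')]
  have hmod : (a : ℤ) ≡ r - N [ZMOD q] := by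
    rw [haz]
    exact Int.mod_modEq _ _
  obtain ⟨I, c, hI, hinf⟩ := hmain q a hq H'
    (by
      intro x y he
      apply hH
      have h1 : ((H' x.1 x.2 : ℕ) : ℤ) = ((H' y.1 y.2 : ℕ) : ℤ) := by
        exact_mod_cast he
      rw [hH'z, hH'z] at h1
      simp only
      omega)
    (by
      intro g i
      rw [← Nat.isCoprime_iff_coprime]
      push_cast
      rw [hH'z]
      obtain ⟨t, ht⟩ := hmod.dvd
      have h1 : (a : ℤ) + (H g i + N) = (r + H g i) + (q : ℤ) * (-t) := by linarith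
      rw [h1]
      exact (hco g i).add_mul_left_left (-t))
    (by
      intro p hp
      obtain ⟨n, hn⟩ := hadm p hp
      have hp0 : (0 : ℤ) < p := by exact_mod_cast hp.pos
      refine ⟨((n - N) % (p : ℤ)).toNat, fun g i hd => hn g i ?_⟩
      have h1 : ((((n - N) % (p : ℤ)).toNat + H' g i : ℕ) : ℤ) =
          (n - N) % (p : ℤ) + (H g i + N) := by
        push_cast
        rw [hH'z, Int.toNat_of_nonneg (Int.emod_nonneg _ hp0.ne')]
      have h2 : (p : ℤ) ∣ (n - N) % (p : ℤ) + (H g i + N) := by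
        rw [← h1]
        exact_mod_cast hd
      have h3 : n + H g i = (n - N) % (p : ℤ) + (H g i + N) + p * ((n - N) / p) := by
        have := Int.emod_add_mul_ediv (n - N) p
        linarith
      rw [h3]
      exact dvd_add h2 (dvd_mul_right _ _))
  refine ⟨I, c, hI, ?_⟩
  have hinj : Set.InjOn (fun n : ℕ => n + N)
      {n : ℕ | n ≡ a [MOD q] ∧ (∀ g ∈ I, (n + H' g (c g)).Prime) ∧
          ∀ y : ℕ, (∃ g ∈ I, H' g (c g) ≤ y) → (∃ g ∈ I, y ≤ H' g (c g)) → (n + y).Prime →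
            ∃ g ∈ I, y = H' g (c g)} := fun x _ y _ he => by
    simp only at he
    omega
  apply (hinf.image hinj).mono
  rintro _ ⟨n, ⟨h1, h2, h3⟩, rfl⟩
  refine ⟨?_, ?_, ?_⟩
  · simp only
    push_cast
    have h4 : (n : ℤ) ≡ a [ZMOD q] := (Int.natCast_modEq_iff).2 h1
    have h5 : (n : ℤ) + N ≡ (r - N) + N [ZMOD q] := (h4.trans hmod).add_right _
    simpa using h5
  · intro f hf
    obtain ⟨g, hg, rfl⟩ := mem_image.1 hf
    refine ⟨n + H' g (c g), h2 g hg, ?_⟩
    push_cast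
    rw [hH'z]
    ring
  · rintro p hp ⟨f, hf, hfp⟩ ⟨f', hf', hfp'⟩
    obtain ⟨g, hg, rfl⟩ := mem_image.1 hf
    obtain ⟨g', hg', rfl⟩ := mem_image.1 hf'
    simp only at hfp hfp'
    push_cast at hfp hfp'
    have e1 := hH'z g (c g)
    have e2 := hH'z g' (c g')
    have h4 : n ≤ p := by
      have : (n : ℤ) ≤ p := by
        have : (0 : ℤ) ≤ (H' g (c g) : ℤ) := Int.natCast_nonneg _
        linarith
      exact_mod_cast this
    obtain ⟨g'', hg'', he⟩ := h3 (p - n)
      ⟨g, hg, by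
        have : ((H' g (c g) : ℕ) : ℤ) ≤ ((p - n : ℕ) : ℤ) := by
          push_cast [Nat.cast_sub h4]
          linarith
        exact_mod_cast this⟩
      ⟨g', hg', by
        have : ((p - n : ℕ) : ℤ) ≤ ((H' g' (c g') : ℕ) : ℤ) := by
          push_cast [Nat.cast_sub h4]
          linarith
        exact_mod_cast this⟩
      (by rw [Nat.add_sub_cancel' h4]; exact hp)
    rw [mem_image]
    refine ⟨g'', hg'', ?_⟩
    have e3 := hH'z g'' (c g'')
    have h5 : ((p - n : ℕ) : ℤ) = ((H' g'' (c g'') : ℕ) : ℤ) := by rw [he]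
    rw [Nat.cast_sub h4] at h5
    push_cast
    linarith

end Pool.Agent.P8H6.Blk
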