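import Mathlib
import Pool.Agent.P8H6.Blk.Int
import Pool.Agent.N900.FC.BoxQ

/-! Almost every admissible tuple of `8 k ^ 2 + 1` integers contains `k + 1` consecutive primes. -/

set_option autoImplicit false

namespace Pool.Agent.P8H6.Blk

open Finset

/-- admissible tuples -/
def Adm {T : ℕ} (v : Fin T → ℤ) : Prop :=
  ∀ p : ℕ, p.Prime → ∃ n : ℤ, ∀ i, ¬ (p : ℤ) ∣ n + v i

/-- a tuple with few elements is admissible for a large prime -/
theorem adm_large {ι : Type*} [Fintype ι] (v : ι → ℤ) (p : ℕ) (hp : p.Prime)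
    (h : Fintype.card ι < p) : ∃ n : ℤ, ∀ i, ¬ (p : ℤ) ∣ n + v i := by
  classical
  have : Fact p.Prime := ⟨hp⟩
  have h1 : (univ.image (fun i => (-(v i : ZMod p)))).card < (univ : Finset (ZMod p)).card := by
    rw [card_univ, ZMod.card]
    exact card_image_le.trans_lt h
  obtain ⟨a, -, ha⟩ := exists_mem_notMem_of_card_lt_card h1
  refine ⟨(a.val : ℤ), fun i hd => ha ?_⟩
  rw [mem_image]
  refine ⟨i, mem_univ _, ?_⟩
  rw [← ZMod.intCast_zmod_eq_zero_iff_dvd] at hd
  push_cast at hd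
  rw [ZMod.natCast_zmod_val] at hd
  linear_combination -hd

/-- a sub-box in one residue class on every side -/
theorem sub_box {T K' : ℕ} (K P : ℕ) (hP : 0 < P) (hK' : P * K ≤ K') (A : Fin T → Fin K' → ℤ) :
    ∃ e : Fin T → Fin K → Fin K', (∀ i, Function.Injective (e i)) ∧
      ∀ i j j', (P : ℤ) ∣ A i (e i j) - A i (e i j') := by
  classical
  have h1 : ∀ i, ∃ e : Fin K → Fin K', Function.Injective e ∧
      ∀ j j', (P : ℤ) ∣ A i (e j) - A i (e j') := by
    intro i
    have hP0 : (0 : ℤ) < P := by exact_mod_cast hP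
    obtain ⟨y, -, hy⟩ := exists_le_card_fiber_of_mul_le_card_of_maps_to
      (s := (univ : Finset (Fin K'))) (t := range P) (f := fun j => (A i j % (P : ℤ)).toNat)
      (n := K) (by
        intro j _
        rw [mem_range]
        have h2 := Int.emod_lt_of_pos (A i j) hP0
        have h3 := Int.emod_nonneg (A i j) hP0.ne'
        omega) ⟨0, mem_range.2 hP⟩ (by
        rw [card_range, card_univ, Fintype.card_fin]
        exact hK')
    obtain ⟨S, hS, hSc⟩ := exists_subset_card_eq hy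
    refine ⟨S.orderEmbOfFin hSc, (S.orderEmbOfFin hSc).injective, fun j j' => ?_⟩
    have h2 := hS (S.orderEmbOfFin_mem hSc j)
    have h3 := hS (S.orderEmbOfFin_mem hSc j')
    rw [mem_filter] at h2 h3
    have h4 := h2.2
    have h5 := h3.2
    have h6 : A i (S.orderEmbOfFin hSc j) % (P : ℤ) = A i (S.orderEmbOfFin hSc j') % (P : ℤ) := by
      have h7 := Int.emod_nonneg (A i (S.orderEmbOfFin hSc j)) hP0.ne'
      have h8 := Int.emod_nonneg (A i (S.orderEmbOfFin hSc j')) hP0.ne'
      omega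
    exact Int.ModEq.dvd (Int.ModEq.symm h6)
  choose e he1 he2 using h1
  exact ⟨e, he1, he2⟩

/-- the tuple is admissible but contains no `k + 1` consecutive primes -/
def IsExc (k q : ℕ) (r : ℤ) {T : ℕ} (v : Fin T → ℤ) : Prop :=
  Function.Injective v ∧ Adm v ∧ (∀ i, IsCoprime (r + v i) (q : ℤ)) ∧
    ¬ ∃ F : Finset ℤ, (∀ f ∈ F, f ∈ Set.range v) ∧ F.card = k + 1 ∧ Cons q r F

open Classical in
/-- the exceptional tuples -/
noncomputable def Exc (k q : ℕ) (r : ℤ) {T : ℕ} (V : Fin T → Finset ℤ) : Finset (Fin T → ℤ) :=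
  (Fintype.piFinset V).filter (fun v => IsExc k q r v)

theorem mem_Exc (k q : ℕ) (r : ℤ) {T : ℕ} (V : Fin T → Finset ℤ) (v : Fin T → ℤ) :
    v ∈ Exc k q r V ↔ (∀ i, v i ∈ V i) ∧ IsExc k q r v := by
  classical
  unfold Exc
  rw [mem_filter, Fintype.mem_piFinset]

/-- from a box of exceptional tuples to a contradiction -/
theorem no_box (k T : ℕ) (hk : 1 ≤ k) (hT : 8 * k ^ 2 < T) : ∃ K' : ℕ, ∀ (q : ℕ) (r : ℤ), 1 ≤ q →
    ∀ V : Fin T → Finset ℤ, ¬ ∃ A : Fin T → Fin K' → ℤ, (∀ i, Function.Injective (A i)) ∧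
      ∀ c : Fin T → Fin K', (fun i => A i (c i)) ∈ Exc k q r V := by
  classical
  obtain ⟨K, hK, hblk⟩ := block_int k T hk hT
  refine ⟨primorial (T * K) * K, ?_⟩
  rintro q r hq V ⟨A, hA1, hA2⟩
  obtain ⟨e, he1, he2⟩ := sub_box K (primorial (T * K)) (primorial_pos _) le_rfl A
  have hK0 : 0 < K := by omega
  have hmem : ∀ c : Fin T → Fin K, (fun i => A i (e i (c i))) ∈ Exc k q r V :=
    fun c => hA2 (fun i => e i (c i))
  have hprop : ∀ c : Fin T → Fin K, IsExc k q r (fun i => A i (e i (c i))) := by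
    intro c
    have h1 := hmem c
    unfold Exc at h1
    exact (mem_filter.1 h1).2
  have hHinj : Function.Injective (fun x : Fin T × Fin K => A x.1 (e x.1 x.2)) := by
    rintro ⟨i, j⟩ ⟨i', j'⟩ hh
    simp only at hh
    by_cases hii : i = i'
    · subst hii
      have h1 := he1 i (hA1 i hh)
      rw [h1]
    · exfalso
      have h1 := (hprop (fun x => if x = i then j else j')).1
      have h2 := @h1 i i' (by
        simp only [if_true, Ne.symm hii, if_false]
        exact hh)
      exact hii h2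
  obtain ⟨I, c, hI, hcons⟩ := hblk q r hq (fun i j => A i (e i j)) hHinj
    (fun i j => (hprop (fun _ => j)).2.2.1 i)
    (by
      intro p hp
      rcases le_or_gt p (T * K) with hle | hlt
      · obtain ⟨n, hn⟩ := (hprop (fun _ => ⟨0, hK0⟩)).2.1 p hp
        refine ⟨n, fun i j hd => hn i ?_⟩
        have h1 : (p : ℤ) ∣ (primorial (T * K) : ℤ) := by
          have : p ∣ primorial (T * K) := by
            unfold primorial
            exact dvd_prod_of_mem _ (by
              rw [mem_filter, mem_range]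
              exact ⟨by omega, hp⟩)
          exact_mod_cast this
        have h2 := h1.trans (he2 i ⟨0, hK0⟩ j)
        have h3 : n + A i (e i ⟨0, hK0⟩) =
            (n + A i (e i j)) + (A i (e i ⟨0, hK0⟩) - A i (e i j)) := by ring
        simp only
        rw [h3]
        exact dvd_add hd h2
      · obtain ⟨n, hn⟩ := adm_large (fun x : Fin T × Fin K => A x.1 (e x.1 x.2)) p hp (by
          rw [Fintype.card_prod, Fintype.card_fin, Fintype.card_fin]
          exact hlt)
        exact ⟨n, fun i j => hn (i, j)⟩)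
  apply (hprop c).2.2.2
  refine ⟨I.image (fun g => A g (e g (c g))), fun f hf => ?_, ?_, hcons⟩
  · obtain ⟨g, -, rfl⟩ := mem_image.1 hf
    exact ⟨g, rfl⟩
  rw [card_image_of_injective _ (hprop c).1, hI]

/-- almost every admissible tuple contains `k + 1` consecutive primes -/
theorem almost (k T : ℕ) (hk : 1 ≤ k) (hT : 8 * k ^ 2 < T) : ∃ c C : ℝ, 0 < c ∧ 0 < C ∧
    ∀ (q : ℕ) (r : ℤ), 1 ≤ q → ∀ (n : ℕ) (V : Fin T → Finset ℤ), 1 ≤ n → (∀ i, n ≤ (V i).card) →
      ((Exc k q r V).card : ℝ) ≤ C / (n : ℝ) ^ c * ∏ i, ((V i).card : ℝ) := by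
  obtain ⟨K', hK'⟩ := no_box k T hk hT
  obtain ⟨c, C, hc, -, hC, hbox⟩ := Pool.Agent.N900.FC.box_saving T K'
  refine ⟨c, C, hc, by linarith, ?_⟩
  intro q r hq n V hn hV
  exact hbox ℤ V n hn hV (Exc k q r V) (by
    classical
    unfold Exc
    exact filter_subset _ _) (hK' q r hq V)

end Pool.Agent.P8H6.Blk
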